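import Pool.Agent.Run7.h71.BL.Final

/-!
# How the distortion must grow as the volume bound degenerates

For `n ≥ 13` and `D > 0` there are `c, v₀ > 0` such that for every `v ∈ (0, v₀)` there are a complete
metric of nonnegative Ricci curvature on `ℝⁿ` and a finite set `A` of diameter at most `D`,
containing a point whose unit ball has volume greater than `v`, such that every bi-Lipschitz
embedding of `A` into a real inner product space (of finite or infinite dimension) has distortion at
least `c (log (1 / v)) ^ (1 / 4)`.

The metrics are rescalings of the metrics of the starting files of MP_39014e_gt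
(`Pool/Agent/TH597/BL`, `Pool/Agent/Y469/BL`). New here: the localisation of the obstruction to a
finite set of controlled diameter (`Run7/h71/BL/{Loc,Obs}.lean`), the triangle inequality for the
distance, rescaling and the volume estimate (`Run7/h71/BL/Met.lean`), and the quantitative relation
between volume and distortion (`Run7/h71/BL/Final.lean`).
-/

set_option autoImplicit false

namespace Pool.Agent.Results.MP_6586ef_gt.DistortionLowerBound

open Pool.Agent.W555.RG Pool.Agent.TH597.BL Run7.h71.BL

theorem result (n : ℕ) (hn : 13 ≤ n) (D : ℝ) (hD : 0 < D) :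
    ∃ c v₀ : ℝ, 0 < c ∧ 0 < v₀ ∧ ∀ v : ℝ, 0 < v → v < v₀ →
      ∃ g : RMetric (Fin n → ℝ), g.IsComplete ∧ (∀ x u, 0 ≤ Ric g x u u) ∧
        ∃ A : Set (Fin n → ℝ), A.Finite ∧ (∀ x ∈ A, ∀ y ∈ A, g.dist x y ≤ D) ∧
          (∃ p ∈ A, ENNReal.ofReal v < vol g {x | g.dist p x < 1}) ∧
          ∀ (E : Type) [NormedAddCommGroup E] [InnerProductSpace ℝ E]
            (f : (Fin n → ℝ) → E) (α β : ℝ), 0 < α →
            (∀ x ∈ A, ∀ y ∈ A, α * g.dist x y ≤ ‖f x - f y‖ ∧ ‖f x - f y‖ ≤ β * g.dist x y) →
            c * Real.log (1 / v) ^ (1 / 4 : ℝ) ≤ β / α :=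
  final n hn D hD

end Pool.Agent.Results.MP_6586ef_gt.DistortionLowerBound
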